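import Pool.Agent.H68K.PR.StmP

/-!
# Project PR, phase 2, stub BIN: few subsets have a number of elements far from the mean
-/

set_option autoImplicit false
set_option linter.all false

open Finset
open scoped Classical

namespace Pool.Agent.H42PR.Bin

/-- the moment generating function -/
theorem mgf (T : Finset ℕ) (t : ℝ) :
    ∑ U ∈ T.powerset, Real.exp (t * (2 * U.card - T.card)) = (2 * Real.cosh t) ^ T.card := by
  have h1 : ∏ i ∈ T, (Real.exp t + Real.exp (-t)) =
      ∑ U ∈ T.powerset, (∏ i ∈ U, Real.exp t) * ∏ i ∈ T \ U, Real.exp (-t) :=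
    Finset.prod_add _ _ _
  rw [Finset.prod_const] at h1
  have h2 : 2 * Real.cosh t = Real.exp t + Real.exp (-t) := by
    rw [Real.cosh_eq]; ring
  rw [h2, h1]
  refine Finset.sum_congr rfl fun U hU => ?_
  rw [Finset.mem_powerset] at hU
  rw [Finset.prod_const, Finset.prod_const, ← Real.exp_nat_mul, ← Real.exp_nat_mul, ← Real.exp_add]
  congr 1
  have h3 : ((T \ U).card : ℝ) = T.card - U.card := by
    rw [Finset.card_sdiff_of_subset hU, Nat.cast_sub (Finset.card_le_card hU)]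
  rw [h3]
  ring

/-- one side -/
theorem side (T : Finset ℕ) {η : ℝ} (hη : 0 ≤ η) (s : ℝ) (hs : s = 1 ∨ s = -1) :
    (((T.powerset.filter fun U => η * T.card ≤ s * ((U.card : ℝ) - (T.card : ℝ) / 2)).card : ℕ) : ℝ) ≤
      2 ^ T.card * Real.exp (- 2 * η ^ 2 * T.card) := by
  obtain ⟨n, hn⟩ : ∃ n : ℝ, n = (T.card : ℝ) := ⟨_, rfl⟩
  have hs2 : s ^ 2 = 1 := by rcases hs with rfl | rfl <;> norm_num
  have h1 := mgf T (2 * η * s)
  have h2 : (2 * Real.cosh (2 * η * s)) ^ T.card ≤ 2 ^ T.card * Real.exp (2 * η ^ 2 * n) := by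
    rw [mul_pow]
    refine mul_le_mul_of_nonneg_left ?_ (by positivity)
    have h3 : Real.exp (2 * η ^ 2 * n) = Real.exp ((2 * η * s) ^ 2 / 2) ^ T.card := by
      rw [← Real.exp_nat_mul, ← hn]
      congr 1
      have : (2 * η * s) ^ 2 = 4 * η ^ 2 * s ^ 2 := by ring
      rw [this, hs2]
      ring
    rw [h3]
    exact pow_le_pow_left₀ (Real.cosh_pos _).le (Real.cosh_le_exp_half_sq _) _
  have h4 : (((T.powerset.filter fun U => η * T.card ≤ s * ((U.card : ℝ) - (T.card : ℝ) / 2)).card :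
      ℕ) : ℝ) * Real.exp (4 * η ^ 2 * n) ≤
      ∑ U ∈ T.powerset, Real.exp ((2 * η * s) * (2 * U.card - T.card)) := by
    rw [← nsmul_eq_mul, ← Finset.sum_const]
    refine (Finset.sum_le_sum (f := fun _ => Real.exp (4 * η ^ 2 * n))
      (g := fun U : Finset ℕ => Real.exp ((2 * η * s) * (2 * U.card - T.card))) ?_).trans
      (Finset.sum_le_sum_of_subset_of_nonneg (Finset.filter_subset _ _)
        fun _ _ _ => (Real.exp_pos _).le)
    intro U hU
    rw [Finset.mem_filter] at hU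
    refine Real.exp_le_exp.2 ?_
    have h5 := hU.2
    rw [← hn] at h5 ⊢
    nlinarith [mul_le_mul_of_nonneg_left h5 (show (0 : ℝ) ≤ 4 * η by positivity)]
  rw [h1] at h4
  have h5 := h4.trans h2
  have h6 : Real.exp (- 2 * η ^ 2 * T.card) = Real.exp (2 * η ^ 2 * n) / Real.exp (4 * η ^ 2 * n) := by
    rw [← Real.exp_sub, ← hn]
    congr 1
    ring
  rw [h6, ← mul_div_assoc, le_div_iff₀ (Real.exp_pos _)]
  exact h5

/-- **Stub BIN of project PR.** -/
theorem bin : Pool.Agent.H68K.PR.S_BIN := by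
  intro T η hη
  have h1 := side T hη 1 (Or.inl rfl)
  have h2 := side T hη (-1) (Or.inr rfl)
  have h3 : (T.powerset.filter fun U => η * T.card ≤ |(U.card : ℝ) - (T.card : ℝ) / 2|) ⊆
      (T.powerset.filter fun U => η * T.card ≤ 1 * ((U.card : ℝ) - (T.card : ℝ) / 2)) ∪
      (T.powerset.filter fun U => η * T.card ≤ (-1) * ((U.card : ℝ) - (T.card : ℝ) / 2)) := by
    intro U hU
    rw [Finset.mem_filter] at hU
    rw [Finset.mem_union, Finset.mem_filter, Finset.mem_filter]
    rcases le_abs.1 hU.2 with h | h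
    · left
      exact ⟨hU.1, by rwa [one_mul]⟩
    · right
      exact ⟨hU.1, by rwa [neg_one_mul]⟩
  have h4 := (Finset.card_le_card h3).trans (Finset.card_union_le _ _)
  have h5 : (((T.powerset.filter fun U => η * T.card ≤ |(U.card : ℝ) - (T.card : ℝ) / 2|).card : ℕ) :
      ℝ) ≤ ((T.powerset.filter fun U => η * T.card ≤ 1 * ((U.card : ℝ) - (T.card : ℝ) / 2)).card : ℕ) +
      ((T.powerset.filter fun U => η * T.card ≤ (-1) * ((U.card : ℝ) - (T.card : ℝ) / 2)).card : ℕ) := by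
    exact_mod_cast h4
  calc _ ≤ _ := h5
    _ ≤ 2 ^ T.card * Real.exp (- 2 * η ^ 2 * T.card) + 2 ^ T.card * Real.exp (- 2 * η ^ 2 * T.card) :=
        add_le_add h1 h2
    _ = _ := by ring

end Pool.Agent.H42PR.Bin
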