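import Pool.Agent.H93PR.Basic
import Pool.Agent.H68K.PR.StmP

/-!
# Project PR, phase 2, stub LIN2: the intersections of a maximal isotropic subgroup

The linear algebra (`exists_snd`, and the coordinates change `sw`) is that of helper93's stub COMB.
-/

set_option autoImplicit false
set_option linter.all false

namespace Pool.Agent.H42PR.Lin2

open Finset Module Pool.Agent.H93PR

section

variable {ι : Type} [Fintype ι] [DecidableEq ι]

/-- exchange the coordinates in `J` -/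
def sw (J : Finset ι) : (ι → ZMod 2 × ZMod 2) →ₗ[ZMod 2] VV ι where
  toFun l := (fun q => if q ∈ J then (l q).2 else (l q).1, fun q => if q ∈ J then (l q).1 else (l q).2)
  map_add' a b := by
    refine Prod.ext ?_ ?_ <;> funext q <;> by_cases h : q ∈ J <;> simp [h]
  map_smul' c a := by
    refine Prod.ext ?_ ?_ <;> funext q <;> by_cases h : q ∈ J <;> simp [h]

theorem sw_fst (J : Finset ι) (l : ι → ZMod 2 × ZMod 2) (q : ι) :
    (sw J l).1 q = if q ∈ J then (l q).2 else (l q).1 := rfl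

theorem sw_snd (J : Finset ι) (l : ι → ZMod 2 × ZMod 2) (q : ι) :
    (sw J l).2 q = if q ∈ J then (l q).1 else (l q).2 := rfl

theorem sw_inj (J : Finset ι) : Function.Injective (sw J) := by
  intro a b hab
  funext q
  have h1 := congrFun (congrArg Prod.fst hab) q
  have h2 := congrFun (congrArg Prod.snd hab) q
  rw [sw_fst, sw_fst] at h1
  rw [sw_snd, sw_snd] at h2
  by_cases h : q ∈ J
  · rw [if_pos h, if_pos h] at h1 h2
    exact Prod.ext h2 h1
  · rw [if_neg h, if_neg h] at h1 h2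
    exact Prod.ext h1 h2

/-- the image of `Λ` -/
def LI (Λ : Submodule (ZMod 2) (ι → ZMod 2 × ZMod 2)) (J : Finset ι) : Submodule (ZMod 2) (VV ι) :=
  Λ.map (sw J)

/-- the intersection with the product of lines -/
def LS (Λ : Submodule (ZMod 2) (ι → ZMod 2 × ZMod 2)) (J : Finset ι) : Set (ι → ZMod 2 × ZMod 2) :=
  {l | l ∈ Λ ∧ (∀ q ∈ J, (l q).2 = 0) ∧ ∀ q ∉ J, (l q).1 = 0}

theorem sw_mem (Λ : Submodule (ZMod 2) (ι → ZMod 2 × ZMod 2)) (J I : Finset ι)
    (l : ι → ZMod 2 × ZMod 2) : sw J l ∈ W (LI Λ J) I ↔ l ∈ LS Λ (symmDiff J I) := by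
  rw [mem_W]
  unfold LI LS
  rw [Submodule.mem_map, Set.mem_setOf_eq]
  have h1 : (∃ y ∈ Λ, sw J y = sw J l) ↔ l ∈ Λ :=
    ⟨fun ⟨y, hy, h⟩ => sw_inj J h ▸ hy, fun h => ⟨l, h, rfl⟩⟩
  rw [h1]
  refine and_congr_right fun _ => ?_
  constructor
  · rintro ⟨h2, h3⟩
    refine ⟨fun q hq => ?_, fun q hq => ?_⟩
    · rw [mem_symmDiff] at hq
      rcases hq with ⟨hq1, hq2⟩ | ⟨hq1, hq2⟩
      · have := h3 q hq2
        rwa [sw_fst, if_pos hq1] at this
      · have := h2 q hq1
        rwa [sw_snd, if_neg hq2] at this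
    · rw [mem_symmDiff] at hq
      by_cases hqJ : q ∈ J
      · by_cases hqI : q ∈ I
        · have := h2 q hqI
          rwa [sw_snd, if_pos hqJ] at this
        · exact absurd (Or.inl ⟨hqJ, hqI⟩) hq
      · by_cases hqI : q ∈ I
        · exact absurd (Or.inr ⟨hqI, hqJ⟩) hq
        · have := h3 q hqI
          rwa [sw_fst, if_neg hqJ] at this
  · rintro ⟨h2, h3⟩
    refine ⟨fun q hq => ?_, fun q hq => ?_⟩
    · rw [sw_snd]
      by_cases hqJ : q ∈ J
      · rw [if_pos hqJ]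
        exact h3 q (by rw [mem_symmDiff]; tauto)
      · rw [if_neg hqJ]
        exact h2 q (by rw [mem_symmDiff]; tauto)
    · rw [sw_fst]
      by_cases hqJ : q ∈ J
      · rw [if_pos hqJ]
        exact h2 q (by rw [mem_symmDiff]; tauto)
      · rw [if_neg hqJ]
        exact h3 q (by rw [mem_symmDiff]; tauto)

theorem card_W (Λ : Submodule (ZMod 2) (ι → ZMod 2 × ZMod 2)) (J I : Finset ι) :
    Nat.card (W (LI Λ J) I) = Nat.card (LS Λ (symmDiff J I)) := by
  symm
  refine Nat.card_congr (Equiv.ofBijective (fun l => (⟨sw J l.1, (sw_mem Λ J I l.1).2 l.2⟩ :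
    W (LI Λ J) I)) ⟨?_, ?_⟩)
  · intro a b hab
    exact Subtype.ext (sw_inj J (congrArg Subtype.val hab))
  · rintro ⟨w, hw⟩
    obtain ⟨l, hl, rfl⟩ := (mem_W.1 hw).1
    exact ⟨⟨l, (sw_mem Λ J I l).1 hw⟩, rfl⟩

/-- The intersection with the product of lines, as a set of vectors. -/
theorem ls_bij (Λ : Submodule (ZMod 2) (ι → ZMod 2 × ZMod 2)) (J : Finset ι) :
    ∃ e : LS Λ J ≃ KK (LI Λ J), ∀ l q, (e l).1 q = 0 ↔ l.1 q = 0 := by
  have hm : ∀ l, l ∈ LS Λ J ↔ sw J l ∈ W (LI Λ J) ∅ := by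
    intro l
    rw [sw_mem]
    have : symmDiff J ∅ = J := by
      ext q
      rw [mem_symmDiff]
      simp
    rw [this]
  have h0 : ∀ l ∈ LS Λ J, sw J l = (0, (sw J l).2) := by
    intro l hl
    refine Prod.ext ?_ rfl
    funext q
    exact (mem_W.1 ((hm l).1 hl)).2.2 q (by simp)
  refine ⟨Equiv.ofBijective (fun l => ⟨(sw J l.1).2, mem_KK.2 (by
    rw [← h0 l.1 l.2]
    exact ⟨l.1, l.2.1, rfl⟩)⟩) ⟨?_, ?_⟩, ?_⟩
  · intro a b hab
    apply Subtype.ext
    apply sw_inj J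
    rw [h0 a.1 a.2, h0 b.1 b.2]
    exact congrArg (fun y => ((0, Subtype.val y) : VV ι)) hab
  · rintro ⟨y, hy⟩
    obtain ⟨l, hl, hly⟩ := mem_KK.1 hy
    have h1 : sw J l ∈ W (LI Λ J) ∅ := by
      rw [hly]
      exact mem_W.2 ⟨hy, by simp, fun _ _ => rfl⟩
    exact ⟨⟨l, (hm l).2 h1⟩, Subtype.ext (congrArg Prod.snd hly)⟩
  · intro l q
    change (sw J l.1).2 q = 0 ↔ l.1 q = 0
    have h1 : (sw J l.1).1 q = 0 := congrFun (congrArg Prod.fst (h0 l.1 l.2)) q
    rw [sw_fst] at h1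
    rw [sw_snd]
    by_cases hq : q ∈ J
    · rw [if_pos hq] at h1 ⊢
      exact ⟨fun h => Prod.ext h h1, fun h => by rw [h]; rfl⟩
    · rw [if_neg hq] at h1 ⊢
      exact ⟨fun h => Prod.ext h1 h, fun h => by rw [h]; rfl⟩

theorem card_KK (Λ : Submodule (ZMod 2) (ι → ZMod 2 × ZMod 2)) (J : Finset ι) :
    Nat.card (KK (LI Λ J)) = Nat.card (LS Λ J) := by
  obtain ⟨e, -⟩ := ls_bij Λ J
  exact (Nat.card_congr e).symm

theorem card_KK_pow (K : Submodule (ZMod 2) (ι → ZMod 2)) : Nat.card K = 2 ^ finrank (ZMod 2) K := by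
  rw [Module.natCard_eq_pow_finrank (K := ZMod 2), Nat.card_zmod]

theorem Q_sw (J : Finset ι) (l : ι → ZMod 2 × ZMod 2) : Q (sw J l) = ∑ q, (l q).1 * (l q).2 := by
  unfold Q
  refine sum_congr rfl fun q _ => ?_
  rw [sw_fst, sw_snd]
  split_ifs
  · exact mul_comm _ _
  · rfl

/-- `K` with a coordinate which is not zero: half of `K` has this coordinate zero. -/
theorem card_Kv' (K : Submodule (ZMod 2) (ι → ZMod 2)) {q : ι} (h : ∃ y ∈ K, y q ≠ 0) :
    Nat.card K = 2 * Nat.card (Kv K q) := by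
  refine le_antisymm (card_Kv K q) ?_
  obtain ⟨k, hk, hkq⟩ := h
  have h1 : Nat.card (ZMod 2 × Kv K q) = 2 * Nat.card (Kv K q) := by
    rw [Nat.card_prod]
    simp
  rw [← h1]
  refine Nat.card_le_card_of_injective (fun p : ZMod 2 × Kv K q =>
    (⟨p.1 • k + p.2.1, K.add_mem (K.smul_mem _ hk) (mem_Kv.1 p.2.2).1⟩ : K)) ?_
  rintro ⟨c, y⟩ ⟨c', y'⟩ hcc
  have h2 : c • k + y.1 = c' • k + y'.1 := congrArg Subtype.val hcc
  have h3 := congrFun h2 q
  rw [Pi.add_apply, Pi.add_apply, Pi.smul_apply, Pi.smul_apply, (mem_Kv.1 y.2).2,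
    (mem_Kv.1 y'.2).2, eq_one hkq, add_zero, add_zero, smul_eq_mul, smul_eq_mul, mul_one,
    mul_one] at h3
  subst h3
  have h4 : y.1 = y'.1 := add_left_cancel h2
  rw [Subtype.ext h4]

/-- One step. -/
theorem step {Λ : Submodule (ZMod 2) (VV ι)} (h : ∀ l ∈ Λ, Q l = 0)
    (hb : Fintype.card ι ≤ finrank (ZMod 2) Λ) (q : ι) :
    ((∃ y ∈ KK Λ, y q ≠ 0) ∧ Nat.card (KK Λ) = 2 * Nat.card (W Λ {q})) ∨
      ((¬ ∃ y ∈ KK Λ, y q ≠ 0) ∧ Nat.card (W Λ {q}) = 2 * Nat.card (KK Λ)) := by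
  by_cases hex : ∃ y ∈ KK Λ, y q ≠ 0
  · left
    refine ⟨hex, ?_⟩
    rw [card_Kv' _ hex]
    congr 1
    obtain ⟨y, hy, hq⟩ := hex
    have hq1 : y q = 1 := eq_one hq
    refine Nat.card_congr (Equiv.ofBijective (fun y => (⟨(0, y.1), mem_W.2 ⟨(mem_Kv.1 y.2).1,
      fun p hp => by rw [mem_singleton] at hp; rw [hp]; exact (mem_Kv.1 y.2).2,
      fun _ _ => rfl⟩⟩ : W Λ {q})) ⟨?_, ?_⟩)
    · intro a b hab
      exact Subtype.ext (congrArg (fun w => (Subtype.val w).2) hab)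
    · rintro ⟨⟨x, z⟩, hw⟩
      obtain ⟨h1, h2, h3⟩ := mem_W.1 hw
      have h4 := Lag.bil h h1 (mem_KK.1 hy)
      unfold B at h4
      rw [Finset.sum_eq_single q] at h4
      · have h5 : x q = 0 := by
          simpa [hq1] using h4
        have hx : x = 0 := by
          funext p
          by_cases hp : p = q
          · rw [hp]; exact h5
          · exact h3 p (by rw [mem_singleton]; exact hp)
        subst hx
        exact ⟨⟨z, mem_Kv.2 ⟨h1, h2 q (by simp)⟩⟩, rfl⟩
      · intro p _ hp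
        have h5 : x p = 0 := h3 p (by rw [mem_singleton]; exact hp)
        simp [h5]
      · simp
  · right
    refine ⟨hex, ?_⟩
    push Not at hex
    obtain ⟨y, hy⟩ := exists_snd h hb (x := Pi.single q 1) (by
      intro y hy
      rw [Finset.sum_eq_single q]
      · rw [hex y hy, mul_zero]
      · intro b _ hb
        rw [Pi.single_eq_of_ne hb, zero_mul]
      · simp)
    have h1 : y q = 0 := by
      have h2 := h _ hy
      unfold Q at h2
      rw [Finset.sum_eq_single q] at h2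
      · simpa using h2
      · intro b _ hb
        simp only [Pi.single_eq_of_ne hb, zero_mul]
      · simp
    have h2 : ((Pi.single q 1, y) : VV ι) ∈ W Λ {q} := by
      refine mem_W.2 ⟨hy, fun b hb => ?_, fun b hb => ?_⟩
      · rw [Finset.mem_singleton] at hb
        rw [hb]; exact h1
      · rw [Finset.mem_singleton] at hb
        exact Pi.single_eq_of_ne hb _
    refine le_antisymm ?_ ?_
    · have h3 : Nat.card (ZMod 2 × KK Λ) = 2 * Nat.card (KK Λ) := by
        rw [Nat.card_prod]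
        simp
      rw [← h3]
      have h4 : ∀ l ∈ W Λ {q}, l - l.1 q • ((Pi.single q 1, y) : VV ι) =
          (0, l.2 - l.1 q • y) := by
        intro l hl
        refine Prod.ext ?_ rfl
        funext p
        by_cases hp : p = q
        · rw [hp]
          simp
        · have := (mem_W.1 hl).2.2 p (by rw [mem_singleton]; exact hp)
          simp [this, hp]
      refine Nat.card_le_card_of_injective (fun l : W Λ {q} =>
        ((l.1.1 q, ⟨l.1.2 - l.1.1 q • y, mem_KK.2 (by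
          rw [← h4 l.1 l.2]
          exact Λ.sub_mem (mem_W.1 l.2).1 (Λ.smul_mem _ hy))⟩) : ZMod 2 × KK Λ)) ?_
      intro a b hab
      have h5 : a.1.1 q = b.1.1 q := congrArg Prod.fst hab
      have h6 : a.1.2 - a.1.1 q • y = b.1.2 - b.1.1 q • y :=
        congrArg (fun p => (Prod.snd p).1) hab
      rw [h5, sub_left_inj] at h6
      refine Subtype.ext (Prod.ext ?_ h6)
      funext p
      by_cases hp : p = q
      · rw [hp]; exact h5
      · rw [(mem_W.1 a.2).2.2 p (by rw [mem_singleton]; exact hp),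
          (mem_W.1 b.2).2.2 p (by rw [mem_singleton]; exact hp)]
    · have h3 := W_ge (n := 1) (I := {q}) (fun _ => ((Pi.single q 1, y) : VV ι)) (fun _ => h2) (by
        intro c hc
        rw [Fin.sum_univ_one] at hc
        have h4 := congrFun hc q
        simp only [Pi.smul_apply, Pi.single_eq_same, smul_eq_mul, mul_one, Pi.zero_apply] at h4
        funext j
        rw [Fin.eq_zero j]
        exact h4) (KK Λ) le_rfl (by
          intro y hy b hb
          rw [Finset.mem_singleton] at hb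
          rw [hb]; exact hex y hy)
      simpa using h3

end

open scoped Classical

variable {ι : Type} [Fintype ι]

/-- the coordinates which are not always zero -/
noncomputable def supp (K : Submodule (ZMod 2) (ι → ZMod 2)) : Finset ι :=
  univ.filter fun q => ∃ y ∈ K, y q ≠ 0

/-- the weight -/
noncomputable def wt (y : ι → ZMod 2) : ℕ := (univ.filter fun q => y q ≠ 0).card

theorem card_ne (K : Submodule (ZMod 2) (ι → ZMod 2)) (q : ι) :
    2 * (univ.filter fun y : K => y.1 q ≠ 0).card = if q ∈ supp K then Nat.card K else 0 := by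
  by_cases h : q ∈ supp K
  · rw [if_pos h]
    unfold supp at h
    rw [mem_filter] at h
    have h1 := card_Kv' K h.2
    have h2 : (univ.filter fun y : K => y.1 q = 0).card = Nat.card (Kv K q) := by
      rw [← Fintype.card_subtype, ← Nat.card_eq_fintype_card]
      refine Nat.card_congr (Equiv.ofBijective (fun y => (⟨y.1.1, mem_Kv.2 ⟨y.1.2, y.2⟩⟩ : Kv K q))
        ⟨?_, ?_⟩)
      · intro a b hab
        exact Subtype.ext (Subtype.ext (congrArg (fun w : Kv K q => w.1) hab))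
      · rintro ⟨y, hy⟩
        exact ⟨⟨⟨y, (mem_Kv.1 hy).1⟩, (mem_Kv.1 hy).2⟩, rfl⟩
    have h3 := Finset.card_filter_add_card_filter_not (s := (univ : Finset K)) (fun y : K => y.1 q = 0)
    rw [h2] at h3
    have h4 : (univ : Finset K).card = Nat.card K := by
      rw [Finset.card_univ, Nat.card_eq_fintype_card]
    rw [h4] at h3
    have h5 : (univ.filter fun y : K => ¬ y.1 q = 0) = (univ.filter fun y : K => y.1 q ≠ 0) := rfl
    rw [h5] at h3
    omega
  · rw [if_neg h]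
    have h1 : (univ.filter fun y : K => y.1 q ≠ 0) = ∅ := by
      rw [Finset.filter_eq_empty_iff]
      intro y _ hy
      exact h (by unfold supp; rw [mem_filter]; exact ⟨mem_univ _, y.1, y.2, hy⟩)
    rw [h1]
    simp

theorem sum_wt (K : Submodule (ZMod 2) (ι → ZMod 2)) :
    2 * ∑ y : K, wt y.1 = (supp K).card * Nat.card K := by
  have h1 : ∑ y : K, wt y.1 = ∑ q : ι, (univ.filter fun y : K => y.1 q ≠ 0).card := by
    unfold wt
    simp only [Finset.card_filter]
    exact Finset.sum_comm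
  rw [h1, Finset.mul_sum, Finset.sum_congr rfl fun q _ => card_ne K q, Finset.sum_ite_mem,
    Finset.univ_inter, Finset.sum_const, smul_eq_mul]

theorem supp_card (K : Submodule (ZMod 2) (ι → ZMod 2)) {d : ℕ} (hd : Nat.card K = 2 ^ d) {η : ℝ}
    (hη : 0 ≤ η) (h : ∀ y ∈ K, y ≠ 0 → |(wt y : ℝ) - (Fintype.card ι : ℝ) / 2| ≤
      η * Fintype.card ι) :
    |((supp K).card : ℝ) - (1 - (2 : ℝ)⁻¹ ^ d) * Fintype.card ι| ≤ 2 * η * Fintype.card ι := by
  obtain ⟨n, hn⟩ : ∃ n : ℝ, n = (Fintype.card ι : ℝ) := ⟨_, rfl⟩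
  have hn0 : 0 ≤ n := by rw [hn]; positivity
  rw [← hn] at h ⊢
  have h1 : 2 * ∑ y : K, (wt y.1 : ℝ) = (supp K).card * 2 ^ d := by
    have := sum_wt K
    rw [hd] at this
    exact_mod_cast this
  have h2 : ∑ y : K, (wt y.1 : ℝ) = ∑ y ∈ (univ : Finset K).erase 0, (wt y.1 : ℝ) := by
    symm
    apply Finset.sum_erase
    unfold wt
    simp
  have h3 : (((univ : Finset K).erase 0).card : ℝ) = 2 ^ d - 1 := by
    rw [Finset.card_erase_of_mem (mem_univ _), Finset.card_univ, ← Nat.card_eq_fintype_card, hd,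
      Nat.cast_sub Nat.one_le_two_pow]
    simp
  have h4 : |∑ y ∈ (univ : Finset K).erase 0, (wt y.1 : ℝ) - (2 ^ d - 1) * (n / 2)| ≤
      (2 ^ d - 1) * (η * n) := by
    rw [← h3, ← nsmul_eq_mul, ← Finset.sum_const, ← Finset.sum_sub_distrib]
    refine (Finset.abs_sum_le_sum_abs _ _).trans ?_
    rw [← nsmul_eq_mul, ← Finset.sum_const]
    refine Finset.sum_le_sum fun y hy => ?_
    rw [Finset.mem_erase] at hy
    exact h y.1 y.2 fun h' => hy.1 (Subtype.ext h')
  rw [← h2] at h4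
  have h5 : ∑ y : K, (wt y.1 : ℝ) = (supp K).card * 2 ^ d / 2 := by linarith
  rw [h5] at h4
  have h6 : (0 : ℝ) < 2 ^ d := by positivity
  have h7 : ((supp K).card : ℝ) - (1 - (2 : ℝ)⁻¹ ^ d) * n =
      (((supp K).card : ℝ) * 2 ^ d / 2 - (2 ^ d - 1) * (n / 2)) * (2 / 2 ^ d) := by
    rw [inv_pow]
    field_simp
  rw [h7, abs_mul, abs_of_pos (show (0 : ℝ) < 2 / 2 ^ d by positivity)]
  calc _ ≤ (2 ^ d - 1) * (η * n) * (2 / 2 ^ d) :=
        mul_le_mul_of_nonneg_right h4 (by positivity)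
    _ ≤ 2 ^ d * (η * n) * (2 / 2 ^ d) := by
        refine mul_le_mul_of_nonneg_right (mul_le_mul_of_nonneg_right (by linarith)
          (mul_nonneg hη hn0)) (by positivity)
    _ = 2 * η * n := by
        field_simp

/-- **Stub LIN2 of project PR.** -/
theorem lin2 : Pool.Agent.H68K.PR.S_LIN2 := by
  intro ι _ Λ' hiso hbig
  obtain ⟨Λ, hΛ⟩ : ∃ Λ : Submodule (ZMod 2) (ι → ZMod 2 × ZMod 2),
      Λ = AddSubgroup.toZModSubmodule 2 Λ' := ⟨_, rfl⟩
  have hmem : ∀ l, l ∈ Λ ↔ l ∈ Λ' := by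
    intro l
    rw [hΛ]
    exact Iff.rfl
  have hLJ : ∀ J, Pool.Agent.H68K.PR.LJ Λ' J = LS Λ J := by
    intro J
    ext l
    unfold Pool.Agent.H68K.PR.LJ LS
    rw [Set.mem_setOf_eq, Set.mem_setOf_eq, hmem]
  have hiso' : ∀ J, ∀ l ∈ LI Λ J, Q l = 0 := by
    rintro J _ ⟨l, hl, rfl⟩
    rw [Q_sw]
    exact hiso l ((hmem l).1 hl)
  have hbig' : ∀ J, Fintype.card ι ≤ finrank (ZMod 2) (LI Λ J) := by
    intro J
    have hfr : finrank (ZMod 2) (LI Λ J) = finrank (ZMod 2) Λ :=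
      (LinearEquiv.finrank_eq (Submodule.equivMapOfInjective (sw J) (sw_inj J) Λ)).symm
    rw [hfr]
    have h1 : Nat.card Λ' = Nat.card Λ := by
      rw [hΛ]
      rfl
    rw [h1, Module.natCard_eq_pow_finrank (K := ZMod 2), Nat.card_zmod] at hbig
    exact (Nat.pow_le_pow_iff_right (by norm_num)).1 hbig
  obtain ⟨d, hd⟩ : ∃ d : Finset ι → ℕ, ∀ J, d J = finrank (ZMod 2) (KK (LI Λ J)) := ⟨_, fun _ => rfl⟩
  have hcard : ∀ J, Nat.card (KK (LI Λ J)) = 2 ^ d J := by
    intro J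
    rw [hd]
    exact card_KK_pow _
  have hcard' : ∀ J, Nat.card (LS Λ J) = 2 ^ d J := by
    intro J
    rw [← card_KK]
    exact hcard J
  -- one step
  have hstep : ∀ J, ∀ q ∉ J, ((∃ l ∈ LS Λ J, l q ≠ 0) ∧ d (insert q J) + 1 = d J) ∨
      ((¬ ∃ l ∈ LS Λ J, l q ≠ 0) ∧ d (insert q J) = d J + 1) := by
    intro J q hq
    have h1 : symmDiff J {q} = insert q J := by
      ext p
      rw [mem_symmDiff, mem_insert, mem_singleton]
      constructor
      · rintro (⟨h, _⟩ | ⟨h, _⟩)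
        · exact Or.inr h
        · exact Or.inl h
      · rintro (h | h)
        · exact Or.inr ⟨h, h ▸ hq⟩
        · exact Or.inl ⟨h, fun h' => hq (h' ▸ h)⟩
    have h2 : Nat.card (W (LI Λ J) {q}) = 2 ^ d (insert q J) := by
      rw [card_W, h1, hcard']
    have h3 : (∃ y ∈ KK (LI Λ J), y q ≠ 0) ↔ ∃ l ∈ LS Λ J, l q ≠ 0 := by
      obtain ⟨e, he⟩ := ls_bij Λ J
      constructor
      · rintro ⟨y, hy, hyq⟩
        refine ⟨(e.symm ⟨y, hy⟩).1, (e.symm ⟨y, hy⟩).2, fun h' => hyq ?_⟩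
        have := (he (e.symm ⟨y, hy⟩) q).2 h'
        rwa [Equiv.apply_symm_apply] at this
      · rintro ⟨l, hl, hlq⟩
        exact ⟨(e ⟨l, hl⟩).1, (e ⟨l, hl⟩).2, fun h' => hlq ((he ⟨l, hl⟩ q).1 h')⟩
    rcases step (hiso' J) (hbig' J) q with ⟨h4, h5⟩ | ⟨h4, h5⟩
    · left
      refine ⟨h3.1 h4, ?_⟩
      rw [hcard, h2, ← pow_succ'] at h5
      exact (Nat.pow_right_injective le_rfl h5).symm
    · right
      refine ⟨fun h => h4 (h3.2 h), ?_⟩
      rw [hcard, h2, ← pow_succ'] at h5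
      exact Nat.pow_right_injective le_rfl h5
  refine ⟨d, fun J => ?_, fun J q hq => ?_, fun J q hq => ?_, fun J η hη hw => ?_⟩
  · rw [hLJ]
    exact hcard' J
  · rcases hstep J q hq with ⟨-, h⟩ | ⟨-, h⟩
    · exact Or.inr h
    · exact Or.inl h
  · rw [hLJ]
    rcases hstep J q hq with ⟨h1, h2⟩ | ⟨h1, h2⟩
    · exact ⟨fun _ => h1, fun _ => h2⟩
    · exact ⟨fun h => by omega, fun h => absurd h h1⟩
  · rw [hLJ] at hw
    obtain ⟨e, he⟩ := ls_bij Λ J
    have h1 := supp_card (KK (LI Λ J)) (hcard J) hη (by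
      intro y hy hy0
      have h2 : (e.symm ⟨y, hy⟩).1 ≠ 0 := by
        intro h'
        apply hy0
        funext q
        have := (he (e.symm ⟨y, hy⟩) q).2 (by rw [h']; rfl)
        rwa [Equiv.apply_symm_apply] at this
      have h3 := hw _ (e.symm ⟨y, hy⟩).2 h2
      have h4 : (univ.filter fun q => (e.symm ⟨y, hy⟩).1 q ≠ 0).card = wt y := by
        unfold wt
        congr 1
        ext q
        rw [mem_filter, mem_filter]
        refine and_congr_right fun _ => not_congr ?_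
        have := he (e.symm ⟨y, hy⟩) q
        rw [Equiv.apply_symm_apply] at this
        exact this.symm
      rwa [h4] at h3)
    have h2 : (univ.filter fun q => q ∉ J ∧ d (insert q J) + 1 = d J) = supp (KK (LI Λ J)) \ J := by
      ext q
      unfold supp
      rw [mem_filter, mem_sdiff, mem_filter]
      constructor
      · rintro ⟨-, hq, h⟩
        rcases hstep J q hq with ⟨⟨l, hl, hlq⟩, h2⟩ | ⟨h1, h2⟩
        · exact ⟨⟨mem_univ _, (e ⟨l, hl⟩).1, (e ⟨l, hl⟩).2, fun h' => hlq ((he ⟨l, hl⟩ q).1 h')⟩, hq⟩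
        · omega
      · rintro ⟨⟨-, y, hy, hyq⟩, hq⟩
        refine ⟨mem_univ _, hq, ?_⟩
        rcases hstep J q hq with ⟨h1, h2⟩ | ⟨h1, h2⟩
        · exact h2
        · exfalso
          refine h1 ⟨(e.symm ⟨y, hy⟩).1, (e.symm ⟨y, hy⟩).2, fun h' => hyq ?_⟩
          have := (he (e.symm ⟨y, hy⟩) q).2 h'
          rwa [Equiv.apply_symm_apply] at this
    rw [h2]
    have h3 : ((supp (KK (LI Λ J)) \ J).card : ℝ) ≤ (supp (KK (LI Λ J))).card := by
      exact_mod_cast Finset.card_le_card Finset.sdiff_subset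
    have h4 : ((supp (KK (LI Λ J))).card : ℝ) ≤ (supp (KK (LI Λ J)) \ J).card + J.card := by
      have : (supp (KK (LI Λ J))).card ≤ (supp (KK (LI Λ J)) \ J).card + J.card := by
        have := Finset.le_card_sdiff J (supp (KK (LI Λ J)))
        omega
      exact_mod_cast this
    have h5 := abs_le.1 h1
    rw [abs_le]
    constructor <;> linarith [h5.1, h5.2]

end Pool.Agent.H42PR.Lin2
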