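import Pool.Agent.H68K.PR.StmC
import Pool.Agent.N521.QM.Selc
import Pool.Agent.N42.QM.Glf
import Pool.Agent.N530.QM.Farc

/-!
# Project PR (helper68), part COC: points of order two, halving
-/

set_option autoImplicit false
set_option linter.all false

open Polynomial IsDedekindDomain WeierstrassCurve WeierstrassCurve.Affine
open Pool.Agent.TH115.GD Pool.Agent.N874.PP
open scoped Classical

namespace Pool.Agent.H42PR

open Pool.Agent.N630.PP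

/-- Halving a point. -/
theorem halveS {F : Type} [Field F] {W : Affine F} {a b : F} (h : IsS W a b) {x y u v w : F}
    (hP : W.Nonsingular x y) {t₁ t₂ t₃ : F} (h1 : t₁ ^ 3 + a * t₁ + b = 0)
    (h2 : t₂ ^ 3 + a * t₂ + b = 0) (h3 : t₃ ^ 3 + a * t₃ + b = 0) (h12 : t₁ ≠ t₂) (h13 : t₁ ≠ t₃)
    (h23 : t₂ ≠ t₃) (hu : u ^ 2 = x - t₁) (hv : v ^ 2 = x - t₂) (hw : w ^ 2 = x - t₃)
    (huvw : u * v * w = y) : ∃ R : W.Point, R + R = Point.some x y hP := by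
  obtain ⟨ea, eb⟩ := rel2 h1 h2 h12
  have e3 := rel3 h1 h2 h3 h12 h13 h23
  have s0 : t₁ + t₂ + t₃ = 0 := by rw [e3]; ring
  obtain ⟨X, hX⟩ : ∃ X, X = x + u * v + u * w + v * w := ⟨_, rfl⟩
  obtain ⟨Y, hY⟩ : ∃ Y, Y = (u + v) * (u + w) * (v + w) := ⟨_, rfl⟩
  have f1 : X - t₁ = (u + v) * (u + w) := by rw [hX]; linear_combination -hu
  have f2 : X - t₂ = (u + v) * (v + w) := by rw [hX]; linear_combination -hv
  have f3 : X - t₃ = (u + w) * (v + w) := by rw [hX]; linear_combination -hw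
  have g1 : u + v ≠ 0 := by
    intro h0
    apply h12
    linear_combination hu - hv - (u - v) * h0
  have g2 : u + w ≠ 0 := by
    intro h0
    apply h13
    linear_combination hu - hw - (u - w) * h0
  have g3 : v + w ≠ 0 := by
    intro h0
    apply h23
    linear_combination hv - hw - (v - w) * h0
  have hY0 : Y ≠ 0 := by
    rw [hY]
    exact mul_ne_zero (mul_ne_zero g1 g2) g3
  have h2F := h.two
  have h2Y : (2 : F) * Y ≠ 0 := mul_ne_zero h2F hY0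
  have hR : W.Nonsingular X Y := by
    rw [h.nonsingular]
    have e : X ^ 3 + a * X + b = (X - t₁) * (X - t₂) * (X - t₃) := by
      rw [ea, eb, e3]; ring
    rw [e, f1, f2, f3, hY]
    ring
  have hne : Y ≠ W.negY X Y := by
    rw [h.negY]
    intro h1
    apply h2Y
    linear_combination h1
  have hder : 3 * X ^ 2 + a = 2 * Y * (u + v + w) := by
    have e : 3 * X ^ 2 + a = (X - t₁) * (X - t₂) + (X - t₁) * (X - t₃) + (X - t₂) * (X - t₃) := by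
      rw [ea, e3]; ring
    rw [e, f1, f2, f3, hY]
    ring
  have hs : W.slope X X Y Y = u + v + w := by
    rw [slope_of_Y_ne rfl hne, h.negY, h.a1, h.a2, h.a4]
    have e1 : (3 * X ^ 2 + 2 * 0 * X + a - 0 * Y) / (Y - -Y) = (3 * X ^ 2 + a) / (2 * Y) := by
      congr 1 <;> ring
    rw [e1, hder, mul_div_cancel_left₀ _ h2Y]
  have c1 : W.addX X X (W.slope X X Y Y) = x := by
    rw [hs, addX, h.a1, h.a2, hX]
    linear_combination hu + hv + hw - s0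
  have c2 : W.addY X X Y (W.slope X X Y Y) = y := by
    rw [addY, negAddY, c1, hs, h.negY, hX, hY, ← huvw]
    ring
  refine ⟨Point.some X Y hR, ?_⟩
  rw [Point.add_self_of_Y_ne hne]
  simp only [c1, c2]

section basic

variable {K Ω : Type} [Field K] [Field Ω] [Algebra K Ω] {A B : K}

/-- Three different zeros. -/
structure Tri (A B : K) (t₁ t₂ t₃ : Ω) : Prop where
  n1 : t₁ ≠ t₂
  n2 : t₁ ≠ t₃
  n3 : t₂ ≠ t₃
  r1 : Rt A B t₁
  r2 : Rt A B t₂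
  r3 : Rt A B t₃

theorem Tri.cases {t₁ t₂ t₃ : Ω} (h : Tri A B t₁ t₂ t₃) {y : Ω} (hy : Rt A B y) :
    y = t₁ ∨ y = t₂ ∨ y = t₃ :=
  Pool.Agent.N187.PP.root_cases h.n1 h.n2 h.n3 h.r1 h.r2 h.r3 hy

theorem Tri.map {Ω' : Type} [Field Ω'] [Algebra K Ω'] (φ : Ω →ₐ[K] Ω') {t₁ t₂ t₃ : Ω}
    (h : Tri A B t₁ t₂ t₃) : Tri A B (φ t₁) (φ t₂) (φ t₃) where
  n1 := fun e => h.n1 (φ.injective e)
  n2 := fun e => h.n2 (φ.injective e)
  n3 := fun e => h.n3 (φ.injective e)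
  r1 := Pool.Agent.N187.PP.rt_map φ h.r1
  r2 := Pool.Agent.N187.PP.rt_map φ h.r2
  r3 := Pool.Agent.N187.PP.rt_map φ h.r3

theorem exists_tri [IsSepClosed Ω] (hd : 4 * A ^ 3 + 27 * B ^ 2 ≠ 0) :
    ∃ t₁ t₂ t₃ : Ω, Tri A B t₁ t₂ t₃ := by
  obtain ⟨Z, hZ3, hZ⟩ := Pool.Agent.N199.PP.exists_Z (Ω := Ω) A B hd
  obtain ⟨a, b, c, hab, hac, hbc, hZe⟩ := Finset.card_eq_three.1 hZ3
  exact ⟨a, b, c, hab, hac, hbc, (Pool.Agent.N199.PP.mem_Z hZ a).1 (by rw [hZe]; simp),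
    (Pool.Agent.N199.PP.mem_Z hZ b).1 (by rw [hZe]; simp),
    (Pool.Agent.N199.PP.mem_Z hZ c).1 (by rw [hZe]; simp)⟩

variable (h6 : (6 : K) ≠ 0) (hd : 4 * A ^ 3 + 27 * B ^ 2 ≠ 0)

include h6 in
theorem two_ne' : (2 : Ω) ≠ 0 := by
  intro h
  have h' : (6 : Ω) = 0 := by linear_combination 3 * h
  apply h6
  exact (algebraMap K Ω).injective (a₁ := 6) (a₂ := 0) (by rw [map_zero, map_ofNat, h'])

include h6 hd in
theorem halve [IsSepClosed Ω] {x y : Ω} (hxy : ((sW A B).baseChange Ω).toAffine.Nonsingular x y) :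
    ∃ R : Pt (sW A B) Ω, (2 : ℕ) • R = Point.some x y hxy := by
  have hS := isS (Ω := Ω) h6 hd
  obtain ⟨t₁, t₂, t₃, ht⟩ := exists_tri (Ω := Ω) (A := A) (B := B) hd
  haveI : NeZero ((2 : ℕ) : Ω) := ⟨by exact_mod_cast hS.two⟩
  obtain ⟨u, hu⟩ := IsSepClosed.exists_pow_nat_eq (x - t₁) 2
  obtain ⟨v, hv⟩ := IsSepClosed.exists_pow_nat_eq (x - t₂) 2
  obtain ⟨w, hw⟩ := IsSepClosed.exists_pow_nat_eq (x - t₃) 2
  have h1' : t₁ ^ 3 + algebraMap K Ω A * t₁ + algebraMap K Ω B = 0 := ht.r1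
  have h2' : t₂ ^ 3 + algebraMap K Ω A * t₂ + algebraMap K Ω B = 0 := ht.r2
  have h3' : t₃ ^ 3 + algebraMap K Ω A * t₃ + algebraMap K Ω B = 0 := ht.r3
  obtain ⟨ea, eb⟩ := rel2 h1' h2' ht.n1
  have e3 := rel3 h1' h2' h3' ht.n1 ht.n2 ht.n3
  have hy := hS.nonsingular.1 hxy
  have hsq : (u * v * w) ^ 2 = y ^ 2 := by
    rw [hy, mul_pow, mul_pow, hu, hv, hw, ea, eb, e3]
    ring
  rcases sq_eq_sq_iff_eq_or_eq_neg.1 hsq with h | h
  · obtain ⟨R, hR⟩ := halveS hS hxy h1' h2' h3' ht.n1 ht.n2 ht.n3 hu hv hw h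
    exact ⟨R, by rw [two_nsmul]; exact hR⟩
  · obtain ⟨R, hR⟩ := halveS (w := -w) hS hxy h1' h2' h3' ht.n1 ht.n2 ht.n3 hu hv
      (by rw [neg_sq]; exact hw) (by linear_combination -h)
    exact ⟨R, by rw [two_nsmul]; exact hR⟩

include h6 hd in
theorem sg_add {t₁ t₂ t₃ : Ω} (ht : Tri A B t₁ t₂ t₃) {T T' : Pt (sW A B) Ω} {t : Ω}
    (hT : (2 : ℕ) • T = 0) (hT' : (2 : ℕ) • T' = 0) (h : Rt A B t) :
    sg (T + T') t = sg T t * sg T' t :=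
  (gp3 K Ω A B h6 hd t₁ t₂ t₃ ht.r1 ht.r2 ht.r3 ht.n1 ht.n2 ht.n3).2.1 T T' t hT hT' h

include h6 hd in
theorem sg_ext {t₁ t₂ t₃ : Ω} (ht : Tri A B t₁ t₂ t₃) {T T' : Pt (sW A B) Ω}
    (hT : (2 : ℕ) • T = 0) (hT' : (2 : ℕ) • T' = 0)
    (h : ∀ t, Rt A B t → sg T t = sg T' t) : T = T' := by
  have h2 : (2 : ℕ) • (T + T') = 0 := by rw [smul_add, hT, hT', add_zero]
  have key : ∀ t, Rt A B t → sg (T + T') t = 1 := by
    intro t hr
    rw [sg_add h6 hd ht hT hT' hr, h t hr, Pool.Agent.N187.PP.sg_mul_self]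
  have h0 := (gp3 K Ω A B h6 hd t₁ t₂ t₃ ht.r1 ht.r2 ht.r3 ht.n1 ht.n2 ht.n3).2.2.1 (T + T') h2
    (key _ ht.r1) (key _ ht.r2) (key _ ht.r3)
  rw [two_nsmul] at hT'
  have e1 : T = -T' := eq_neg_of_add_eq_zero_left h0
  rw [e1]
  exact (eq_neg_of_add_eq_zero_left hT').symm

include h6 hd in
theorem sg_exists {t₁ t₂ t₃ : Ω} (ht : Tri A B t₁ t₂ t₃) (ε : Ω → Ω)
    (hε : ∀ t, Rt A B t → ε t = 1 ∨ ε t = -1) (hp : ε t₁ * ε t₂ * ε t₃ = 1) :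
    ∃ T : Pt (sW A B) Ω, (2 : ℕ) • T = 0 ∧ ∀ t, Rt A B t → sg T t = ε t := by
  obtain ⟨T, hT, s1, s2, s3⟩ := (gp3 K Ω A B h6 hd t₁ t₂ t₃ ht.r1 ht.r2 ht.r3 ht.n1 ht.n2
    ht.n3).2.2.2 _ _ _ (hε _ ht.r1) (hε _ ht.r2) (hε _ ht.r3) hp
  refine ⟨T, hT, fun t hr => ?_⟩
  rcases ht.cases hr with rfl | rfl | rfl
  · exact s1
  · exact s2
  · exact s3

include h6 hd in
/-- With a common sign. -/
theorem sg_exists' {t₁ t₂ t₃ : Ω} (ht : Tri A B t₁ t₂ t₃) (ε : Ω → Ω)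
    (hε : ∀ t, Rt A B t → ε t = 1 ∨ ε t = -1) :
    ∃ (T : Pt (sW A B) Ω) (s : Ω), (2 : ℕ) • T = 0 ∧ (s = 1 ∨ s = -1) ∧
      ∀ t, Rt A B t → sg T t = s * ε t := by
  have h : ε t₁ * ε t₂ * ε t₃ = 1 ∨ ε t₁ * ε t₂ * ε t₃ = -1 := by
    rcases hε _ ht.r1 with h1 | h1 <;> rcases hε _ ht.r2 with h2 | h2 <;>
      rcases hε _ ht.r3 with h3 | h3 <;> rw [h1, h2, h3] <;> simp
  rcases h with h | h
  · obtain ⟨T, hT, h'⟩ := sg_exists h6 hd ht ε hε h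
    exact ⟨T, 1, hT, Or.inl rfl, fun t hr => by rw [h' t hr, one_mul]⟩
  · obtain ⟨T, hT, h'⟩ := sg_exists h6 hd ht (fun t => -ε t) (fun t hr => by
      rcases hε t hr with h | h <;> rw [h] <;> simp) (by linear_combination -h)
    exact ⟨T, -1, hT, Or.inr rfl, fun t hr => by rw [h' t hr]; ring⟩

end basic

end Pool.Agent.H42PR
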