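import Pool.Agent.H42PR.Basic

/-!
# Project PR (helper68), part COC: the cocycle of a class of square norm
-/

set_option autoImplicit false
set_option linter.all false

open Polynomial IsDedekindDomain WeierstrassCurve WeierstrassCurve.Affine
open Pool.Agent.TH115.GD Pool.Agent.N874.PP
open scoped Classical

namespace Pool.Agent.H42PR

open Pool.Agent.N187.PP (rt_iff rt_map rt_map' exists_poly prod_perm norm_poly minpoly_eq trans
  locConst_apply sg_mul_self fix_sg sg_act' two_act' F_natDegree F_monic)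

variable {M : Type} [Field M] {A B : M}

theorem rt_root [Fact (Irreducible (X ^ 3 + C A * X + C B : M[X]))] :
    Rt A B (AdjoinRoot.root (X ^ 3 + C A * X + C B : M[X])) := by
  have h1 := AdjoinRoot.eval₂_root (X ^ 3 + C A * X + C B : M[X])
  rw [eval₂_add, eval₂_add, eval₂_mul, eval₂_pow, eval₂_X, eval₂_C, eval₂_C] at h1
  exact h1

theorem finrank_root (hirr : Irreducible (X ^ 3 + C A * X + C B : M[X])) :
    Module.finrank M (AdjoinRoot (X ^ 3 + C A * X + C B : M[X])) = 3 := by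
  rw [(AdjoinRoot.powerBasis hirr.ne_zero).finrank, AdjoinRoot.powerBasis_dim, F_natDegree]

theorem aeval_ne {Ω : Type} [Field Ω] [Algebra M Ω] {h : M[X]}
    (hcop : IsCoprime h (X ^ 3 + C A * X + C B)) {t : Ω} (ht : Rt A B t) : aeval t h ≠ 0 := by
  intro h0
  obtain ⟨a, b, hab⟩ := hcop
  have e := congrArg (aeval t) hab
  rw [map_add, map_mul, map_mul, h0, (rt_iff t).1 ht, mul_zero, mul_zero, add_zero, map_one] at e
  exact zero_ne_one e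

/-- A cocycle with given signs. -/
theorem exists_coc (h6 : (6 : M) ≠ 0) (hd : 4 * A ^ 3 + 27 * B ^ 2 ≠ 0)
    (hirr : Irreducible (X ^ 3 + C A * X + C B : M[X])) {h : M[X]}
    (hcop : IsCoprime h (X ^ 3 + C A * X + C B))
    (hn : IsSquare (Algebra.norm M (AdjoinRoot.mk (X ^ 3 + C A * X + C B) h))) :
    ∃ (f : (Sep M ≃ₐ[M] Sep M) → Pt (sW A B) (Sep M)) (β : Sep M → Sep M),
      IsCoc (sW A B) f ∧ (∀ σ, (2 : ℕ) • f σ = 0) ∧ IsBeta A B f β ∧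
      ∀ t : Sep M, Rt A B t → aeval t h = β t ^ 2 := by
  obtain ⟨t₁, t₂, t₃, ht⟩ := exists_tri (Ω := Sep M) (A := A) (B := B) hd
  have h2 : (2 : Sep M) ≠ 0 := two_ne' h6
  haveI : NeZero ((2 : ℕ) : Sep M) := ⟨by exact_mod_cast h2⟩
  have hex : ∀ t : Sep M, ∃ z : Sep M, z ^ 2 = aeval t h := fun t =>
    IsSepClosed.exists_pow_nat_eq (aeval t h) 2
  choose β hβ using hex
  have hβ0 : ∀ t : Sep M, Rt A B t → β t ≠ 0 := by
    intro t hr h0
    have := hβ t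
    rw [h0] at this
    exact aeval_ne hcop hr (by rw [← this]; ring)
  -- the product
  have hprod : β t₁ * β t₂ * β t₃ ∈ Set.range (algebraMap M (Sep M)) := by
    haveI : Fact (Irreducible (X ^ 3 + C A * X + C B : M[X])) := ⟨hirr⟩
    obtain ⟨c, hc⟩ := hn
    have e := norm_poly h6 hirr (rt_root (A := A) (B := B)) (finrank_root hirr) ht.n1 ht.n2 ht.n3
      ht.r1 ht.r2 ht.r3 h
    rw [AdjoinRoot.aeval_eq] at e
    have e2 : (β t₁ * β t₂ * β t₃) ^ 2 = (algebraMap M (Sep M) c) ^ 2 := by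
      rw [mul_pow, mul_pow, hβ, hβ, hβ, ← e, hc, map_mul, pow_two]
    rcases sq_eq_sq_iff_eq_or_eq_neg.1 e2 with h' | h'
    · exact ⟨c, h'.symm⟩
    · exact ⟨-c, by rw [map_neg]; exact h'.symm⟩
  have hfix : ∀ σ : Sep M ≃ₐ[M] Sep M, σ (β t₁ * β t₂ * β t₃) = β t₁ * β t₂ * β t₃ := by
    intro σ
    obtain ⟨c, hc⟩ := hprod
    rw [← hc]
    exact σ.commutes c
  have hsq : ∀ (σ : Sep M ≃ₐ[M] Sep M) (t : Sep M), (σ (β t)) ^ 2 = β (σ t) ^ 2 := by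
    intro σ t
    rw [← map_pow, hβ, hβ]
    exact (aeval_algHom_apply σ.toAlgHom t h).symm
  -- the signs
  have hinv : ∀ (σ : Sep M ≃ₐ[M] Sep M) (t : Sep M), σ ((σ⁻¹ : Sep M ≃ₐ[M] Sep M) t) = t := by
    intro σ t
    rw [← AlgEquiv.mul_apply, mul_inv_cancel, AlgEquiv.one_apply]
  have hT : ∀ σ : Sep M ≃ₐ[M] Sep M, ∃ T : Pt (sW A B) (Sep M), (2 : ℕ) • T = 0 ∧
      ∀ t, Rt A B t → sg T t = σ (β ((σ⁻¹ : Sep M ≃ₐ[M] Sep M) t)) / β t := by
    intro σ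
    refine sg_exists h6 hd ht (fun t => σ (β ((σ⁻¹ : Sep M ≃ₐ[M] Sep M) t)) / β t) ?_ ?_
    · intro t hr
      rw [← mul_self_eq_one_iff, ← pow_two, div_pow, hsq, hinv,
        div_self (pow_ne_zero 2 (hβ0 t hr))]
    · have e1 := prod_perm ht.n1 ht.n2 ht.n3 ht.r1 ht.r2 ht.r3 σ⁻¹ β
      have e2 := hfix σ
      rw [← e1, map_mul, map_mul, e1] at e2
      have b1 := hβ0 _ ht.r1
      have b2 := hβ0 _ ht.r2
      have b3 := hβ0 _ ht.r3
      show σ (β ((σ⁻¹ : Sep M ≃ₐ[M] Sep M) t₁)) / β t₁ *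
        (σ (β ((σ⁻¹ : Sep M ≃ₐ[M] Sep M) t₂)) / β t₂) *
        (σ (β ((σ⁻¹ : Sep M ≃ₐ[M] Sep M) t₃)) / β t₃) = 1
      rw [div_mul_div_comm, div_mul_div_comm, e2, div_self]
      exact mul_ne_zero (mul_ne_zero b1 b2) b3
  choose f hf2 hf using hT
  have hf' : ∀ (σ : Sep M ≃ₐ[M] Sep M) (t : Sep M), Rt A B t →
      σ (β t) = sg (f σ) (σ t) * β (σ t) := by
    intro σ t hr
    have e : (σ⁻¹ : Sep M ≃ₐ[M] Sep M) (σ t) = t := by
      rw [← AlgEquiv.mul_apply, inv_mul_cancel, AlgEquiv.one_apply]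
    rw [hf σ _ (rt_map' σ hr), e, div_mul_cancel₀ _ (hβ0 _ (rt_map' σ hr))]
  have hgp4 := Pool.Agent.N630.PP.gp4
  refine ⟨f, β, ⟨?_, ?_⟩, hf2, fun t hr => ⟨hβ0 t hr, fun σ => hf' σ t hr⟩, fun t hr =>
    (hβ t).symm⟩
  · -- locally constant
    rw [IsLocallyConstant.iff_exists_open]
    intro σ
    refine ⟨{τ | τ t₁ = σ t₁} ∩ {τ | τ t₂ = σ t₂} ∩ {τ | τ t₃ = σ t₃} ∩
      ({τ | τ (β t₁) = σ (β t₁)} ∩ {τ | τ (β t₂) = σ (β t₂)} ∩ {τ | τ (β t₃) = σ (β t₃)}), ?_,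
      ⟨⟨⟨rfl, rfl⟩, rfl⟩, ⟨⟨rfl, rfl⟩, rfl⟩⟩, ?_⟩
    · exact ((((locConst_apply t₁).isOpen_fiber _).inter ((locConst_apply t₂).isOpen_fiber _)).inter
        ((locConst_apply t₃).isOpen_fiber _)).inter
        ((((locConst_apply (β t₁)).isOpen_fiber _).inter
          ((locConst_apply (β t₂)).isOpen_fiber _)).inter
          ((locConst_apply (β t₃)).isOpen_fiber _))
    · rintro τ ⟨⟨⟨a1, a2⟩, a3⟩, ⟨⟨b1, b2⟩, b3⟩⟩
      refine sg_ext h6 hd ht (hf2 τ) (hf2 σ) fun s hs => ?_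
      obtain ⟨t, hr, rfl⟩ : ∃ t, Rt A B t ∧ σ t = s :=
        ⟨(σ⁻¹ : Sep M ≃ₐ[M] Sep M) s, rt_map' σ⁻¹ hs, hinv σ s⟩
      have key : τ t = σ t ∧ τ (β t) = σ (β t) := by
        rcases ht.cases hr with rfl | rfl | rfl
        · exact ⟨a1, b1⟩
        · exact ⟨a2, b2⟩
        · exact ⟨a3, b3⟩
      have e1 := hf' τ t hr
      have e2 := hf' σ t hr
      rw [key.1, key.2] at e1
      exact mul_right_cancel₀ (hβ0 _ (rt_map' σ hr)) (e1.symm.trans e2)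
  · -- the cocycle relation
    intro σ τ
    have h2a : (2 : ℕ) • act (sW A B) (rs M σ) (f τ) = 0 := two_act' _ (hf2 τ)
    refine sg_ext h6 hd ht (hf2 _) (by rw [smul_add, hf2, h2a, add_zero]) fun s hs => ?_
    obtain ⟨t, hr, rfl⟩ : ∃ t, Rt A B t ∧ (σ * τ) t = s :=
      ⟨((σ * τ)⁻¹ : Sep M ≃ₐ[M] Sep M) s, rt_map' (σ * τ)⁻¹ hs, hinv (σ * τ) s⟩
    have hr1 : Rt A B (τ t) := rt_map' τ hr
    have hr2 : Rt A B ((σ * τ) t) := hs
    have e0 : (σ * τ) t = σ (τ t) := rfl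
    rw [sg_add h6 hd ht (hf2 _) h2a hr2]
    have e3 : sg (act (sW A B) (rs M σ) (f τ)) ((σ * τ) t) = sg (f τ) (τ t) := by
      rw [e0]
      exact sg_act' hgp4 σ (f τ) (τ t)
    rw [e3]
    have e1 := hf' (σ * τ) t hr
    have e2 := hf' σ (τ t) hr1
    have e4 := hf' τ t hr
    have e5 : (σ * τ) (β t) = σ (τ (β t)) := rfl
    rw [e5, e4, map_mul, fix_sg, e2, ← e0] at e1
    apply mul_right_cancel₀ (hβ0 _ hr2)
    rw [← e1]
    ring

end Pool.Agent.H42PR
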