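import Pool.Agent.H42PR.Coc

/-!
# Project PR (helper68), part COC: the local condition, sums, coboundaries
-/

set_option autoImplicit false
set_option linter.all false

open Polynomial IsDedekindDomain WeierstrassCurve WeierstrassCurve.Affine
open Pool.Agent.TH115.GD Pool.Agent.N874.PP
open Pool.Agent.N874.PM (PLoc)
open scoped Classical

namespace Pool.Agent.H42PR

open Pool.Agent.N187.PP (rt_iff rt_map rt_map' exists_poly prod_perm norm_poly minpoly_eq trans
  locConst_apply sg_mul_self sg_sq sg_ne fix_sg sg_act' two_act' F_natDegree F_monic)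

section sums

variable {M : Type} [Field M] {A B : M}

/-- The sum of two cocycles. -/
theorem isBeta_add (h6 : (6 : M) ≠ 0) (hd : 4 * A ^ 3 + 27 * B ^ 2 ≠ 0)
    {f f' : (Sep M ≃ₐ[M] Sep M) → Pt (sW A B) (Sep M)} {β β' : Sep M → Sep M}
    (hf2 : ∀ σ, (2 : ℕ) • f σ = 0) (hf2' : ∀ σ, (2 : ℕ) • f' σ = 0)
    (hβ : IsBeta A B f β) (hβ' : IsBeta A B f' β') :
    IsBeta A B (fun σ => f σ + f' σ) (fun t => β t * β' t) := by
  obtain ⟨t₁, t₂, t₃, ht⟩ := exists_tri (Ω := Sep M) (A := A) (B := B) hd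
  intro t hr
  refine ⟨mul_ne_zero (hβ t hr).1 (hβ' t hr).1, fun σ => ?_⟩
  rw [map_mul, (hβ t hr).2 σ, (hβ' t hr).2 σ,
    sg_add h6 hd ht (hf2 σ) (hf2' σ) (rt_map' σ hr)]
  ring

theorem isCoc_add {f f' : (Sep M ≃ₐ[M] Sep M) → Pt (sW A B) (Sep M)}
    (hf : IsCoc (sW A B) f) (hf' : IsCoc (sW A B) f') :
    IsCoc (sW A B) (fun σ => f σ + f' σ) where
  lc := hf.lc.add hf'.lc
  mul := fun σ τ => by
    show f (σ * τ) + f' (σ * τ) = f σ + f' σ + act (sW A B) (rs M σ) (f τ + f' τ)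
    rw [hf.mul, hf'.mul, map_add]
    abel

/-- A coboundary gives a square. -/
theorem square_of_cob (h6 : (6 : M) ≠ 0) (hd : 4 * A ^ 3 + 27 * B ^ 2 ≠ 0)
    (hirr : Irreducible (X ^ 3 + C A * X + C B : M[X]))
    {f : (Sep M ≃ₐ[M] Sep M) → Pt (sW A B) (Sep M)} {β : Sep M → Sep M} {h : M[X]}
    (hβ : IsBeta A B f β) (hh : ∀ t : Sep M, Rt A B t → aeval t h = β t ^ 2)
    {T : Pt (sW A B) (Sep M)} (hT : (2 : ℕ) • T = 0)
    (hf : ∀ σ, f σ = act (sW A B) (rs M σ) T - T) :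
    ∃ s : M[X], X ^ 3 + C A * X + C B ∣ h - s ^ 2 := by
  obtain ⟨t₁, t₂, t₃, ht⟩ := exists_tri (Ω := Sep M) (A := A) (B := B) hd
  have hgp4 := Pool.Agent.N630.PP.gp4
  have hTT : -T = T := by
    rw [two_nsmul] at hT
    exact (eq_neg_of_add_eq_zero_left hT).symm
  have key : ∀ (σ : Sep M ≃ₐ[M] Sep M) (t : Sep M), Rt A B t →
      σ (sg T t * β t) = sg T (σ t) * β (σ t) := by
    intro σ t hr
    have hr' := rt_map' σ hr
    have e1 : sg (f σ) (σ t) = sg T t * sg T (σ t) := by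
      rw [hf σ, sub_eq_add_neg, hTT, sg_add h6 hd ht (two_act' _ hT) hT hr', sg_act' hgp4]
    rw [map_mul, fix_sg, (hβ t hr).2 σ, e1]
    have e2 := sg_mul_self T t
    linear_combination (sg T (σ t) * β (σ t)) * e2
  obtain ⟨s, hs⟩ := exists_poly (t := t₁) (x := sg T t₁ * β t₁) (fun σ hσ => by
    rw [key σ t₁ ht.r1, hσ])
  refine ⟨s, ?_⟩
  rw [← minpoly_eq hirr ht.r1]
  refine minpoly.dvd M t₁ ?_
  rw [map_sub, map_pow, hs, hh _ ht.r1]
  have e2 := sg_mul_self T t₁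
  linear_combination (-(β t₁) ^ 2) * e2

end sums

section loc

variable {M F : Type} [Field M] [Field F] [Algebra M F] {A B : M}

/-- The polynomial form of the local condition gives local triviality. -/
theorem locTriv_of_ploc (h6 : (6 : M) ≠ 0) (hd : 4 * A ^ 3 + 27 * B ^ 2 ≠ 0)
    {f : (Sep M ≃ₐ[M] Sep M) → Pt (sW A B) (Sep M)} {β : Sep M → Sep M} {h : M[X]}
    (hf2 : ∀ σ, (2 : ℕ) • f σ = 0)
    (hβ : IsBeta A B f β) (hh : ∀ t : Sep M, Rt A B t → aeval t h = β t ^ 2)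
    (hP : PLoc F A B h) : LocTriv (sW A B) F (Sep F) f := by
  obtain ⟨s₁, s₂, s₃, hs⟩ := exists_tri (Ω := Sep M) (A := A) (B := B) hd
  -- the embedding
  obtain ⟨ι⟩ : Nonempty (Sep M →ₐ[M] Sep F) := ⟨IsSepClosed.lift⟩
  have ht := hs.map ι
  have hroot : ∀ u : Sep F, Rt A B u → ∃ t : Sep M, Rt A B t ∧ ι t = u := by
    intro u hu
    rcases ht.cases hu with rfl | rfl | rfl
    · exact ⟨_, hs.r1, rfl⟩
    · exact ⟨_, hs.r2, rfl⟩
    · exact ⟨_, hs.r3, rfl⟩
  have hgp4 := Pool.Agent.N630.PP.gp4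
  have hιf : ∀ σ, (2 : ℕ) • act (sW A B) ι (f σ) = 0 := fun σ => by
    rw [← map_nsmul, hf2, map_zero]
  -- it suffices to compare signs
  suffices key : ∃ P : Pt (sW A B) (Sep F), ∀ (τ : Sep F ≃ₐ[F] Sep F) (σ : Sep M ≃ₐ[M] Sep M),
      (∀ x, τ (ι x) = ι (σ x)) → (2 : ℕ) • (act (sW A B) (rs M τ) P - P) = 0 ∧
      ∀ t : Sep M, Rt A B t → sg (act (sW A B) (rs M τ) P - P) (ι (σ t)) =
        sg (act (sW A B) ι (f σ)) (ι (σ t)) by
    obtain ⟨P, hP'⟩ := key
    refine ⟨ι, P, fun τ σ hτσ => ?_⟩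
    obtain ⟨k1, k2⟩ := hP' τ σ hτσ
    have e : ι.restrictScalars M = ι := rfl
    rw [e]
    refine sg_ext h6 hd ht (hιf σ) k1 fun u hu => ?_
    obtain ⟨t', hr', rfl⟩ := hroot u hu
    have e2 : σ ((σ⁻¹ : Sep M ≃ₐ[M] Sep M) t') = t' := by
      rw [← AlgEquiv.mul_apply, mul_inv_cancel, AlgEquiv.one_apply]
    have := k2 _ (rt_map' σ⁻¹ hr')
    rw [e2] at this
    exact this.symm
  -- values
  have hval : ∀ t : Sep M, Rt A B t → eval (ι t) ((h.map (algebraMap M F)).map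
      (algebraMap F (Sep F))) = ι (β t) ^ 2 := by
    intro t hr
    rw [Polynomial.map_map, ← IsScalarTower.algebraMap_eq, ← map_pow,
      ← hh t hr, eval_map_algebraMap]
    exact aeval_algHom_apply ι t h
  have hcub : ∀ u : Sep F, Rt A B u → eval u ((X ^ 3 + C (algebraMap M F A) * X +
      C (algebraMap M F B) : F[X]).map (algebraMap F (Sep F))) = 0 := by
    intro u hu
    simp only [Polynomial.map_add, Polynomial.map_mul, Polynomial.map_pow, Polynomial.map_X,
      Polynomial.map_C, eval_add, eval_mul, eval_pow, eval_X, eval_C,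
      ← IsScalarTower.algebraMap_apply M F (Sep F)]
    exact hu
  have hdvd : ∀ (H g : F[X]), (X ^ 3 + C (algebraMap M F A) * X + C (algebraMap M F B) ∣
      H - g ^ 2) → ∀ u : Sep F, Rt A B u → eval u (H.map (algebraMap F (Sep F))) =
        (eval u (g.map (algebraMap F (Sep F)))) ^ 2 := by
    rintro H g ⟨q, hq⟩ u hu
    have e := congrArg (fun p => eval u (p.map (algebraMap F (Sep F)))) hq
    simp only [Polynomial.map_sub, Polynomial.map_pow, eval_sub, eval_pow] at e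
    rw [Polynomial.map_mul, eval_mul, hcub u hu, zero_mul] at e
    exact sub_eq_zero.1 e
  have hτg : ∀ (τ : Sep F ≃ₐ[F] Sep F) (g : F[X]) (u : Sep F),
      τ (eval u (g.map (algebraMap F (Sep F)))) = eval (τ u) (g.map (algebraMap F (Sep F))) := by
    intro τ g u
    rw [eval_map_algebraMap, eval_map_algebraMap]
    exact (aeval_algHom_apply τ.toAlgHom u g).symm
  have hιβ0 : ∀ t : Sep M, Rt A B t → ι (β t) ≠ 0 := fun t hr h0 =>
    (hβ t hr).1 ((map_eq_zero ι).1 h0)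
  have hfixτ : ∀ (τ : Sep F ≃ₐ[F] Sep F) (T : Pt (sW A B) (Sep F)) (u : Sep F),
      τ (sg T u) = sg T u := by
    intro τ T u
    rcases sg_sq T u with h | h <;> rw [h] <;> simp
  have hsgτ : ∀ (τ : Sep F ≃ₐ[F] Sep F) (T : Pt (sW A B) (Sep F)) (u : Sep F),
      sg (act (sW A B) (rs M τ) T) (τ u) = sg T u := by
    intro τ T u
    have e := (hgp4 M (Sep F) (Sep F) A B (rs M τ) T u).1
    have e1 : (rs M τ : Sep F →ₐ[M] Sep F) u = τ u := rfl
    have e2 : (rs M τ : Sep F →ₐ[M] Sep F) (sg T u) = τ (sg T u) := rfl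
    rw [e1, e2, hfixτ] at e
    exact e
  have hsgι : ∀ (σ : Sep M ≃ₐ[M] Sep M) (t : Sep M), sg (act (sW A B) ι (f σ)) (ι (σ t)) =
      ι (sg (f σ) (σ t)) := fun σ t => (hgp4 M (Sep M) (Sep F) A B ι (f σ) (σ t)).1
  have hneg : ∀ T : Pt (sW A B) (Sep F), (2 : ℕ) • T = 0 → -T = T := by
    intro T hT
    rw [two_nsmul] at hT
    exact (eq_neg_of_add_eq_zero_left hT).symm
  rcases hP with ⟨g, hg⟩ | ⟨x, y, hy, hxy, g, hg⟩
  · -- the class is trivial
    have hgv : ∀ t : Sep M, Rt A B t →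
        ι (β t) ^ 2 = (eval (ι t) (g.map (algebraMap F (Sep F)))) ^ 2 := by
      intro t hr
      rw [← hval t hr]
      exact hdvd _ _ hg _ (rt_map ι hr)
    have hg0 : ∀ t : Sep M, Rt A B t → eval (ι t) (g.map (algebraMap F (Sep F))) ≠ 0 := by
      intro t hr h0
      have := hgv t hr
      rw [h0] at this
      exact hιβ0 t hr (pow_eq_zero_iff two_ne_zero |>.1 (by rw [this]; ring))
    -- the signs
    have hex : ∀ u : Sep F, ∃ t : Sep M, Rt A B u → (Rt A B t ∧ ι t = u) := by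
      intro u
      by_cases hu : Rt A B u
      · obtain ⟨t, h1, h2⟩ := hroot u hu
        exact ⟨t, fun _ => ⟨h1, h2⟩⟩
      · exact ⟨0, fun h => absurd h hu⟩
    choose j hj using hex
    obtain ⟨T₀, s, hT₀, hs', hsg⟩ := sg_exists' h6 hd ht
      (fun u => ι (β (j u)) / eval u (g.map (algebraMap F (Sep F)))) (by
        intro u hu
        obtain ⟨a1, a2⟩ := hj u hu
        rw [← mul_self_eq_one_iff, ← pow_two, div_pow, hgv _ a1, a2, div_self]
        rw [← a2]
        exact pow_ne_zero 2 (hg0 _ a1))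
    have hsg' : ∀ t : Sep M, Rt A B t →
        sg T₀ (ι t) * eval (ι t) (g.map (algebraMap F (Sep F))) = s * ι (β t) := by
      intro t hr
      obtain ⟨a1, a2⟩ := hj (ι t) (rt_map ι hr)
      have a3 : j (ι t) = t := ι.injective a2
      rw [hsg (ι t) (rt_map ι hr), a3]
      have := hg0 t hr
      field_simp
    have hs2 : s * s = 1 := by rcases hs' with h | h <;> rw [h] <;> ring
    refine ⟨T₀, fun τ σ hτσ => ⟨?_, fun t hr => ?_⟩⟩
    · rw [smul_sub, ← map_nsmul, hT₀, map_zero, sub_zero]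
    · have hr' := rt_map' σ hr
      have hr1 : Rt A B (ι (σ t)) := rt_map ι hr'
      rw [sub_eq_add_neg, hneg _ hT₀, sg_add h6 hd ht (by rw [← map_nsmul, hT₀, map_zero]) hT₀ hr1,
        ← hτσ, hsgτ, hτσ, hsgι]
      have e1 := hsg' t hr
      have e2 := hsg' (σ t) hr'
      have e3 := congrArg τ e1
      have hτs : τ s = s := by rcases hs' with h | h <;> rw [h] <;> simp
      rw [map_mul, hfixτ, hτg, map_mul, hτs, hτσ, hτσ, (hβ t hr).2 σ, map_mul] at e3
      -- sg T₀ (ι t) * g(ι σ t) = s * (ι (sg f σ (σ t)) * ι (β (σ t)))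
      have q1 := sg_mul_self T₀ (ι (σ t))
      have g1 := hg0 (σ t) hr'
      apply mul_right_cancel₀ g1
      linear_combination sg T₀ (ι (σ t)) * e3 - (ι (sg (f σ) (σ t))) * sg T₀ (ι (σ t)) * e2 +
        ι (sg (f σ) (σ t)) * eval (ι (σ t)) (g.map (algebraMap F (Sep F))) * q1
  · -- the class of a point
    obtain ⟨X₀, hX₀⟩ : ∃ X₀ : Sep F, X₀ = algebraMap F (Sep F) x := ⟨_, rfl⟩
    have hyS : algebraMap F (Sep F) y ≠ 0 := (_root_.map_ne_zero _).2 hy
    have hxyS : (algebraMap F (Sep F) y) ^ 2 = X₀ ^ 3 + algebraMap M (Sep F) A * X₀ +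
        algebraMap M (Sep F) B := by
      rw [hX₀, IsScalarTower.algebraMap_apply M F (Sep F), IsScalarTower.algebraMap_apply M F (Sep F),
        ← map_pow, hxy]
      simp only [map_add, map_mul, map_pow]
    have hx0 : ∀ u : Sep F, Rt A B u → X₀ - u ≠ 0 := by
      intro u hu h0
      rw [sub_eq_zero] at h0
      apply hyS
      rw [h0] at hxyS
      have hu' : u ^ 3 + algebraMap M (Sep F) A * u + algebraMap M (Sep F) B = 0 := hu
      rw [hu'] at hxyS
      exact pow_eq_zero_iff two_ne_zero |>.1 hxyS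
    -- the point and its half
    have hnsF : ((sW A B).baseChange F).toAffine.Nonsingular x y :=
      (Pool.Agent.N630.PP.isS (Ω := F) h6 hd).nonsingular.2 hxy
    have hnsS : ((sW A B).baseChange (Sep F)).toAffine.Nonsingular (algebraMap F (Sep F) x)
        (algebraMap F (Sep F) y) :=
      (Pool.Agent.N630.PP.isS (Ω := Sep F) h6 hd).nonsingular.2 (by rw [← hX₀]; exact hxyS)
    obtain ⟨R, hR⟩ := halve h6 hd hnsS
    have hincl : act (sW A B) (incl M F (Sep F)) (Point.some x y hnsF) =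
        Point.some (algebraMap F (Sep F) x) (algebraMap F (Sep F) y) hnsS := rfl
    have hR0 : (2 : ℕ) • R ≠ 0 := by
      rw [hR]
      exact Point.some_ne_zero _
    obtain ⟨X', Y', hQ, hR', hrr⟩ := Pool.Agent.N630.PP.gp1 M (Sep F) A B h6 hd R hR0
    have hX' : X' = X₀ := by
      rw [hR] at hR'
      rw [hX₀]
      exact ((Point.some.inj hR').1).symm
    rw [hX'] at hrr
    have hgv : ∀ t : Sep M, Rt A B t →
        (ι (β t) * rr (ι t) R) ^ 2 = (eval (ι t) (g.map (algebraMap F (Sep F)))) ^ 2 := by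
      intro t hr
      rw [mul_pow, hrr _ (rt_map ι hr), ← hdvd _ _ hg _ (rt_map ι hr), Polynomial.map_mul, eval_mul,
        hval t hr, Polynomial.map_sub, Polynomial.map_C, Polynomial.map_X, eval_sub, eval_C, eval_X,
        hX₀]
      ring
    have hβr0 : ∀ t : Sep M, Rt A B t → ι (β t) * rr (ι t) R ≠ 0 := by
      intro t hr
      refine mul_ne_zero (hιβ0 t hr) fun h0 => ?_
      have := hrr _ (rt_map ι hr)
      rw [h0] at this
      exact hx0 _ (rt_map ι hr) (by rw [← this]; ring)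
    have hg0 : ∀ t : Sep M, Rt A B t → eval (ι t) (g.map (algebraMap F (Sep F))) ≠ 0 := by
      intro t hr h0
      have := hgv t hr
      rw [h0] at this
      exact hβr0 t hr (pow_eq_zero_iff two_ne_zero |>.1 (by rw [this]; ring))
    have hex : ∀ u : Sep F, ∃ t : Sep M, Rt A B u → (Rt A B t ∧ ι t = u) := by
      intro u
      by_cases hu : Rt A B u
      · obtain ⟨t, h1, h2⟩ := hroot u hu
        exact ⟨t, fun _ => ⟨h1, h2⟩⟩
      · exact ⟨0, fun h => absurd h hu⟩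
    choose j hj using hex
    obtain ⟨T₀, s, hT₀, hs', hsg⟩ := sg_exists' h6 hd ht
      (fun u => ι (β (j u)) * rr u R / eval u (g.map (algebraMap F (Sep F)))) (by
        intro u hu
        obtain ⟨a1, a2⟩ := hj u hu
        have a3 := hgv _ a1
        rw [a2] at a3
        rw [← mul_self_eq_one_iff, ← pow_two, div_pow, a3, div_self]
        rw [← a2]
        exact pow_ne_zero 2 (hg0 _ a1))
    have hsg' : ∀ t : Sep M, Rt A B t →
        sg T₀ (ι t) * eval (ι t) (g.map (algebraMap F (Sep F))) = s * (ι (β t) * rr (ι t) R) := by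
      intro t hr
      obtain ⟨a1, a2⟩ := hj (ι t) (rt_map ι hr)
      have a3 : j (ι t) = t := ι.injective a2
      rw [hsg (ι t) (rt_map ι hr), a3]
      have := hg0 t hr
      field_simp
    have hs2 : s * s = 1 := by rcases hs' with h | h <;> rw [h] <;> ring
    refine ⟨R + T₀, fun τ σ hτσ => ?_⟩
    have hT : (2 : ℕ) • (act (sW A B) (rs M τ) R - R) = 0 := by
      rw [smul_sub, ← map_nsmul, hR, ← hincl, rs_act_incl, sub_self]
    have hT₀' : (2 : ℕ) • (act (sW A B) (rs M τ) T₀) = 0 := by rw [← map_nsmul, hT₀, map_zero]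
    have e0 : act (sW A B) (rs M τ) (R + T₀) - (R + T₀) =
        (act (sW A B) (rs M τ) R - R) + (act (sW A B) (rs M τ) T₀ + T₀) := by
      have e1 : act (sW A B) (rs M τ) T₀ + T₀ = act (sW A B) (rs M τ) T₀ - T₀ := by
        rw [sub_eq_add_neg, hneg T₀ hT₀]
      rw [e1, map_add]
      abel
    rw [e0]
    refine ⟨?_, fun t hr => ?_⟩
    · rw [smul_add, smul_add, hT, hT₀', hT₀, add_zero, add_zero]
    · have hr' := rt_map' σ hr
      have hr1 : Rt A B (ι (σ t)) := rt_map ι hr'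
      have e4 : act (sW A B) (rs M τ) R = R + (act (sW A B) (rs M τ) R - R) := by abel
      have e5 := Pool.Agent.N630.PP.gp2 M (Sep F) A B h6 hd R _ hR0 hT (ι (σ t)) hr1
      rw [← e4] at e5
      have e6 : rr (ι (σ t)) (act (sW A B) (rs M τ) R) = τ (rr (ι t) R) := by
        rw [← hτσ]
        exact (hgp4 M (Sep F) (Sep F) A B (rs M τ) R (ι t)).2
      rw [e6] at e5
      have e7 : sg (act (sW A B) (rs M τ) T₀) (ι (σ t)) = sg T₀ (ι t) := by
        rw [← hτσ, hsgτ]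
      rw [sg_add h6 hd ht hT (by rw [smul_add, hT₀', hT₀, add_zero]) hr1,
        sg_add h6 hd ht hT₀' hT₀ hr1, e7, hsgι]
      have e1 := hsg' t hr
      have e2 := hsg' (σ t) hr'
      have e3 := congrArg τ e1
      have hτs : τ s = s := by rcases hs' with h | h <;> rw [h] <;> simp
      rw [map_mul, hfixτ, hτg, map_mul, hτs, map_mul, e5, hτσ, hτσ, (hβ t hr).2 σ, map_mul] at e3
      have q1 := sg_mul_self T₀ (ι (σ t))
      have q2 := sg_mul_self (act (sW A B) (rs M τ) R - R) (ι (σ t))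
      have g1 := hg0 (σ t) hr'
      obtain ⟨a, ha⟩ : ∃ a, a = sg (act (sW A B) (rs M τ) R - R) (ι (σ t)) := ⟨_, rfl⟩
      obtain ⟨c, hc⟩ : ∃ c, c = sg T₀ (ι (σ t)) := ⟨_, rfl⟩
      obtain ⟨d, hd'⟩ : ∃ d, d = sg T₀ (ι t) := ⟨_, rfl⟩
      obtain ⟨k, hk⟩ : ∃ k, k = ι (sg (f σ) (σ t)) := ⟨_, rfl⟩
      obtain ⟨G, hG⟩ : ∃ G, G = eval (ι (σ t)) (g.map (algebraMap F (Sep F))) := ⟨_, rfl⟩
      rw [← ha, ← hc, ← hd', ← hk]
      rw [← ha, ← hd', ← hk, ← hG] at e3
      rw [← hc, ← hG] at e2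
      rw [← hc] at q1
      rw [← ha] at q2
      rw [← hG] at g1
      apply mul_right_cancel₀ g1
      linear_combination a * c * e3 - a * a * k * c * e2 + a * a * k * G * q1 + k * G * q2

end loc

end Pool.Agent.H42PR
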