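import Pool.Agent.H42PR.Loc

/-!
# Project PR (helper68), part COC: the order of the 2-Selmer group
-/

set_option autoImplicit false
set_option linter.all false

open Polynomial IsDedekindDomain NumberField
open Pool.Agent.TH115.GD (Pt act rs IsCoc LocTriv Comp Sep)
open Pool.Agent.N874.PP (sW IsBeta Rt)
open Pool.Agent.N874.PM (PLoc)
open Pool.Agent.N874.QM (IsLoc S_FARC S_FARR S_GLF)
open Pool.Agent.H68K.PR
open scoped Classical

namespace Pool.Agent.H42PR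

variable {M : Type} [Field M] [NumberField M] {A B : M}

/-- The cocycle of an element of the explicit Selmer group. -/
theorem sel_of_selH (hd : 4 * A ^ 3 + 27 * B ^ 2 ≠ 0)
    (hirr : Irreducible (X ^ 3 + C A * X + C B : M[X])) {h : M[X]} (hh : SelH A B h) :
    ∃ (f : (Sep M ≃ₐ[M] Sep M) → Pt (sW A B) (Sep M)) (β : Sep M → Sep M),
      IsCoc (sW A B) f ∧ (∀ σ, (2 : ℕ) • f σ = 0) ∧ IsLoc (sW A B) f ∧ IsBeta A B f β ∧
      ∀ t : Sep M, Rt A B t → aeval t h = β t ^ 2 := by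
  have h6 : (6 : M) ≠ 0 := by norm_num
  obtain ⟨f, β, hf, hf2, hβ, hv⟩ := exists_coc h6 hd hirr hh.cop hh.nrm
  refine ⟨f, β, hf, hf2, ⟨fun w => ?_, fun ρ => ?_⟩, hβ, hv⟩
  · exact locTriv_of_ploc (F := Comp (𝓞 M) M w) h6 hd hf2 hβ hv (hh.fin w)
  · letI := ρ.toAlgebra
    exact locTriv_of_ploc (F := ℝ) h6 hd hf2 hβ hv (hh.real ρ)

/-- The element of the explicit Selmer group of a cocycle. -/
theorem selH_of_sel (hd : 4 * A ^ 3 + 27 * B ^ 2 ≠ 0)
    (hirr : Irreducible (X ^ 3 + C A * X + C B : M[X]))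
    {f : (Sep M ≃ₐ[M] Sep M) → Pt (sW A B) (Sep M)} (hf : IsCoc (sW A B) f)
    (h2f : ∀ σ, (2 : ℕ) • f σ = 0) (hloc : IsLoc (sW A B) f) :
    ∃ (β : Sep M → Sep M) (h : M[X]), IsBeta A B f β ∧
      (∀ t : Sep M, Rt A B t → aeval t h = β t ^ 2) ∧ SelH A B h := by
  have h6 : (6 : M) ≠ 0 := by norm_num
  obtain ⟨β, hβ⟩ := Pool.Agent.N187.PP.gb Pool.Agent.N630.PP.gp3 Pool.Agent.N630.PP.gp4
    M A B h6 hd hirr f hf h2f
  obtain ⟨h, hh, hn⟩ := Pool.Agent.N187.PP.gn Pool.Agent.N630.PP.gp3 Pool.Agent.N630.PP.gp4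
    M A B h6 hd hirr f hf h2f β hβ
  have hGLF : S_GLF := Pool.Agent.N42.QM.glf Pool.Agent.N630.PP.gp1 Pool.Agent.N630.PP.gp2
    Pool.Agent.N630.PP.gp3 Pool.Agent.N630.PP.gp4
  haveI : Fact (Irreducible (X ^ 3 + C A * X + C B : M[X])) := ⟨hirr⟩
  obtain ⟨hn1, hn2⟩ := hn _ _ rt_root (finrank_root hirr)
  rw [AdjoinRoot.aeval_eq] at hn1 hn2
  have hcop : IsCoprime h (X ^ 3 + C A * X + C B) := by
    rw [isCoprime_comm, hirr.coprime_iff_not_dvd, ← AdjoinRoot.mk_eq_zero]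
    exact hn1
  refine ⟨β, h, hβ, hh, ⟨hcop, hn2, fun w => ?_, fun ρ => ?_⟩⟩
  · exact hGLF M (Comp (𝓞 M) M w) A B h6 hd f hf h2f β h hβ hh
      (Pool.Agent.N530.QM.farc M A B hd w) (hloc.fin w)
  · letI := ρ.toAlgebra
    exact hGLF M ℝ A B h6 hd f hf h2f β h hβ hh (Pool.Agent.N42.QM.farr M A B hd) (hloc.real ρ)

/-- (COC) The order of the 2-Selmer group. -/
theorem coc : S_COC := by
  intro M _ _ A B hd hirr n hn
  have h6 : (6 : M) ≠ 0 := by norm_num
  obtain ⟨r, hr, hinj, hsurj⟩ := hn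
  choose f β hf hf2 hloc hβ hv using fun i => sel_of_selH hd hirr (hr i)
  have hneg : ∀ T : Pt (sW A B) (Sep M), (2 : ℕ) • T = 0 → -T = T := by
    intro T hT
    rw [two_nsmul] at hT
    exact (eq_neg_of_add_eq_zero_left hT).symm
  let φ : Fin n → Sel2 (sW A B) := fun i =>
    ⟨QuotientAddGroup.mk (f i), f i, hf i, hf2 i, hloc i, rfl⟩
  have hbij : Function.Bijective φ := by
    constructor
    · intro i j hij
      have e : (QuotientAddGroup.mk (f i) : ((Sep M ≃ₐ[M] Sep M) → Pt (sW A B) (Sep M)) ⧸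
          Cob (sW A B)) = QuotientAddGroup.mk (f j) := congrArg Subtype.val hij
      rw [QuotientAddGroup.eq] at e
      obtain ⟨T, hT, hTc⟩ := e
      apply hinj
      refine square_of_cob h6 hd hirr (f := fun σ => f i σ + f j σ)
        (isBeta_add h6 hd (hf2 i) (hf2 j) (hβ i) (hβ j)) ?_ hT ?_
      · intro t ht
        rw [map_mul, hv i t ht, hv j t ht, mul_pow]
      · intro σ
        show f i σ + f j σ = _
        rw [← hTc σ]
        show f i σ + f j σ = -(f i σ) + f j σ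
        rw [hneg _ (hf2 i σ)]
    · rintro ⟨x, g, hg, hg2, hgl, rfl⟩
      obtain ⟨γ, h, hγ, hγv, hh⟩ := selH_of_sel hd hirr hg hg2 hgl
      obtain ⟨i, s, hs⟩ := hsurj h hh
      refine ⟨i, Subtype.ext ?_⟩
      show (QuotientAddGroup.mk (f i) : ((Sep M ≃ₐ[M] Sep M) → Pt (sW A B) (Sep M)) ⧸
          Cob (sW A B)) = QuotientAddGroup.mk g
      rw [QuotientAddGroup.eq]
      haveI : Fact (Irreducible (X ^ 3 + C A * X + C B : M[X])) := ⟨hirr⟩
      have hsq : IsSquare (aeval (AdjoinRoot.root (X ^ 3 + C A * X + C B : M[X])) (h * r i)) := by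
        rw [AdjoinRoot.aeval_eq]
        refine ⟨AdjoinRoot.mk _ s, ?_⟩
        have h1 := AdjoinRoot.mk_eq_zero.2 hs
        rw [map_sub, map_pow, sub_eq_zero] at h1
        rw [h1, pow_two]
      obtain ⟨T, hT, hTc⟩ := Pool.Agent.N187.PP.gt Pool.Agent.N630.PP.gp3 Pool.Agent.N630.PP.gp4
        M A B h6 hd hirr (fun σ => g σ + f i σ) (isCoc_add hg (hf i))
        (fun σ => by rw [smul_add, hg2, hf2, add_zero]) (fun t => γ t * β i t) (h * r i)
        (isBeta_add h6 hd hg2 (hf2 i) hγ (hβ i)) (fun t ht => by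
          rw [map_mul, hγv t ht, hv i t ht, mul_pow]) _ _ rt_root (finrank_root hirr) hsq
      refine ⟨T, hT, fun σ => ?_⟩
      rw [← hTc σ]
      show -(f i σ) + g σ = g σ + f i σ
      rw [hneg _ (hf2 i σ), add_comm]
  rw [← Nat.card_eq_of_bijective φ hbij, Nat.card_eq_fintype_card, Fintype.card_fin]

end Pool.Agent.H42PR
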